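import Pool.Agent.Helper75.EC.Stmts

/-!
# Points in linearly general position lie on the standard rational normal curves
-/

namespace Pool.Agent.Helper57.EC

open Pool.Agent.Helper75.EC Polynomial

universe w

/-- interpolation matrix -/
theorem FRAME_core {K : Type*} [Field K] {d N : ℕ} (t ω : Fin N → K)
    (w : Fin N → Fin (d + 1) → K) (hω : ∀ i, ω i ≠ 0)
    (hspan : Submodule.span K (Set.range w) = ⊤)
    (hq : ∀ k, ∃ q : K[X], q.degree < (d + 1 : ℕ) ∧ ∀ i, q.eval (t i) = w i k / ω i) :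
    ∃ M : Matrix (Fin (d + 1)) (Fin (d + 1)) K, M.det ≠ 0 ∧
      ∀ i, M.mulVec (w i) = fun j : Fin (d + 1) => ω i * t i ^ (j : ℕ) := by
  choose q hdeg hev using hq
  set A : Matrix (Fin (d + 1)) (Fin (d + 1)) K := fun k j => (q k).coeff (j : ℕ) with hA
  have hAw : ∀ i, A.mulVec (fun j : Fin (d + 1) => ω i * t i ^ (j : ℕ)) = w i := by
    intro i
    funext k
    have h1 : (q k).eval (t i) = ∑ j : Fin (d + 1), (q k).coeff (j : ℕ) * t i ^ (j : ℕ) := by
      have hnd : (q k).natDegree < d + 1 := by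
        by_cases h0 : q k = 0
        · rw [h0]; simp
        · exact (Polynomial.natDegree_lt_iff_degree_lt h0).mpr (hdeg k)
      rw [Polynomial.eval_eq_sum_range' hnd, Finset.sum_range]
    have h2 : (A.mulVec (fun j : Fin (d + 1) => ω i * t i ^ (j : ℕ))) k
        = ∑ j : Fin (d + 1), (q k).coeff (j : ℕ) * (ω i * t i ^ (j : ℕ)) := rfl
    rw [h2]
    have h3 : ∑ j : Fin (d + 1), (q k).coeff (j : ℕ) * (ω i * t i ^ (j : ℕ))
        = ω i * (q k).eval (t i) := by
      rw [h1, Finset.mul_sum]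
      exact Finset.sum_congr rfl fun j _ => by ring
    rw [h3, hev k i]
    field_simp [hω i]
  have hsurj : Function.Surjective A.mulVecLin := by
    rw [← LinearMap.range_eq_top, eq_top_iff, ← hspan, Submodule.span_le]
    rintro _ ⟨i, rfl⟩
    exact ⟨_, hAw i⟩
  have hunit : IsUnit A := by
    rw [← Matrix.mulVec_surjective_iff_isUnit]
    exact hsurj
  have hdet : IsUnit A.det := (Matrix.isUnit_iff_isUnit_det A).mp hunit
  refine ⟨A⁻¹, ?_, ?_⟩
  · rw [Matrix.det_nonsing_inv]
    exact hdet.ringInverse.ne_zero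
  · intro i
    rw [← hAw i, Matrix.mulVec_mulVec, Matrix.nonsing_inv_mul A hdet, Matrix.one_mulVec]

theorem FRAME_span {K : Type*} [Field K] {d N : ℕ} (hN : d + 1 ≤ N)
    (u : Fin N → Fin (d + 1) → K)
    (hu : ∀ s : Finset (Fin N), s.card = d + 1 → LinearIndependent K fun i : s => u i)
    (r : Fin N → K) (hr : ∀ i, r i ≠ 0) :
    Submodule.span K (Set.range fun i => r i • u i) = ⊤ := by
  obtain ⟨s, -, hs⟩ := Finset.exists_subset_card_eq
    (s := (Finset.univ : Finset (Fin N))) (n := d + 1) (by simpa using hN)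
  have h1 := (hu s hs).span_eq_top_of_card_eq_finrank' (by simp [hs])
  rw [eq_top_iff, ← h1, Submodule.span_le]
  rintro _ ⟨i, rfl⟩
  have h2 : u i = (r i)⁻¹ • (r i • u i) := by
    rw [smul_smul, inv_mul_cancel₀ (hr i), one_smul]
  show u i ∈ Submodule.span K (Set.range fun i => r i • u i)
  rw [h2]
  exact Submodule.smul_mem _ _ (Submodule.subset_span ⟨i, rfl⟩)

theorem FRAME_lag {K : Type*} [Field K] {N : ℕ} (t : Fin (N + 1) → K)
    (ht : Function.Injective t) (P : K[X]) (hP : P.degree < ((N + 1 : ℕ) : WithBot ℕ)) :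
    P.coeff N = ∑ i, P.eval (t i) * Lagrange.nodalWeight Finset.univ t i := by
  have h := Lagrange.coeff_eq_sum (s := (Finset.univ : Finset (Fin (N + 1)))) (v := t)
    (fun _ _ _ _ h => ht h) (P := P) (by simpa using hP)
  simp only [Finset.card_univ, Fintype.card_fin, Nat.add_sub_cancel] at h
  rw [h]
  refine Finset.sum_congr rfl fun i _ => ?_
  rw [Lagrange.nodalWeight, Finset.prod_inv_distrib, div_eq_mul_inv]

theorem FRAME_deg {K : Type*} [Field K] {N : ℕ} (P : K[X])
    (hP : P.degree < ((N + 1 : ℕ) : WithBot ℕ)) (h0 : P.coeff N = 0) :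
    P.degree < ((N : ℕ) : WithBot ℕ) := by
  rw [Polynomial.degree_lt_iff_coeff_zero] at hP ⊢
  intro m hm
  rcases hm.eq_or_lt with h | h
  · rw [← h]; exact h0
  · exact hP m h

theorem st_FRAME (hSETUP : ST_SETUP.{w}) : ST_FRAME.{w} := by
  intro K _ _ n u v hu hv
  obtain ⟨t, r, s, ht, hr, hs, h1, h2, h3⟩ := hSETUP K n u v hu hv
  set ω : Fin (n + 3) → K := fun i => Lagrange.nodalWeight Finset.univ t i with hωdef
  have hinj : Set.InjOn t (Finset.univ : Finset (Fin (n + 3))) := fun _ _ _ _ h => ht h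
  have hω : ∀ i, ω i ≠ 0 := fun i => Lagrange.nodalWeight_ne_zero hinj (Finset.mem_univ i)
  have hint : ∀ g : Fin (n + 3) → K, ∃ q : K[X], q.degree < ((n + 3 : ℕ) : WithBot ℕ) ∧
      ∀ i, q.eval (t i) = g i := by
    intro g
    refine ⟨Lagrange.interpolate Finset.univ t g, ?_, fun i => ?_⟩
    · have := Lagrange.degree_interpolate_lt g hinj
      simpa using this
    · exact Lagrange.eval_interpolate_at_node g hinj (Finset.mem_univ i)
  have hqA : ∀ k, ∃ q : K[X], q.degree < (n + 1 : ℕ) ∧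
      ∀ i, q.eval (t i) = (r i • u i) k / ω i := by
    intro k
    obtain ⟨q, hq1, hq2⟩ := hint fun i => (r i • u i) k / ω i
    have c1 : q.coeff (n + 2) = 0 := by
      rw [FRAME_lag t ht q hq1]
      have : ∀ i, q.eval (t i) * Lagrange.nodalWeight Finset.univ t i = (r i • u i) k := by
        intro i
        rw [hq2 i]
        exact div_mul_cancel₀ _ (hω i)
      rw [Finset.sum_congr rfl fun i _ => this i, ← Finset.sum_apply, h1]
      rfl
    have hq3 := FRAME_deg q hq1 c1
    have c2 : q.coeff (n + 1) = 0 := by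
      have hX : (X * q).degree < ((n + 3 : ℕ) : WithBot ℕ) := by
        rw [Polynomial.degree_lt_iff_coeff_zero] at hq3 ⊢
        intro m hm
        obtain ⟨m', rfl⟩ : ∃ m', m = m' + 1 := ⟨m - 1, by omega⟩
        rw [Polynomial.coeff_X_mul]
        exact hq3 m' (by omega)
      have hlag := FRAME_lag t ht (X * q) hX
      have hco : (X * q).coeff (n + 2) = q.coeff (n + 1) := Polynomial.coeff_X_mul q (n + 1)
      rw [← hco, hlag]
      have : ∀ i, (X * q).eval (t i) * Lagrange.nodalWeight Finset.univ t i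
          = ((t i * r i) • u i) k := by
        intro i
        rw [Polynomial.eval_mul, Polynomial.eval_X, hq2 i, mul_assoc]
        have e : (r i • u i) k / ω i * Lagrange.nodalWeight Finset.univ t i = (r i • u i) k :=
          div_mul_cancel₀ _ (hω i)
        rw [e, Pi.smul_apply, Pi.smul_apply, smul_eq_mul, smul_eq_mul]
        ring
      rw [Finset.sum_congr rfl fun i _ => this i, ← Finset.sum_apply, h2]
      rfl
    exact ⟨q, FRAME_deg q hq3 c2, hq2⟩
  have hqB : ∀ k, ∃ q : K[X], q.degree < (n + 1 + 1 : ℕ) ∧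
      ∀ i, q.eval (t i) = (s i • v i) k / ω i := by
    intro k
    obtain ⟨q, hq1, hq2⟩ := hint fun i => (s i • v i) k / ω i
    have c1 : q.coeff (n + 2) = 0 := by
      rw [FRAME_lag t ht q hq1]
      have : ∀ i, q.eval (t i) * Lagrange.nodalWeight Finset.univ t i = (s i • v i) k := by
        intro i
        rw [hq2 i]
        exact div_mul_cancel₀ _ (hω i)
      rw [Finset.sum_congr rfl fun i _ => this i, ← Finset.sum_apply, h3]
      rfl
    exact ⟨q, FRAME_deg q hq1 c1, hq2⟩
  obtain ⟨MA, hMA, hMA'⟩ := FRAME_core t ω (fun i => r i • u i) hω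
    (FRAME_span (by omega) u hu r hr) hqA
  obtain ⟨MB, hMB, hMB'⟩ := FRAME_core t ω (fun i => s i • v i) hω
    (FRAME_span (by omega) v hv s hs) hqB
  refine ⟨t, MA, MB, ht, hMA, hMB, fun i => ?_, fun i => ?_⟩
  · refine ⟨(r i)⁻¹ * ω i, mul_ne_zero (inv_ne_zero (hr i)) (hω i), ?_⟩
    have e := hMA' i
    rw [Matrix.mulVec_smul] at e
    have e2 : MA.mulVec (u i) = (r i)⁻¹ • (r i • MA.mulVec (u i)) := by
      rw [smul_smul, inv_mul_cancel₀ (hr i), one_smul]
    rw [e2, e]
    funext j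
    simp only [Pi.smul_apply, smul_eq_mul]
    ring
  · refine ⟨(s i)⁻¹ * ω i, mul_ne_zero (inv_ne_zero (hs i)) (hω i), ?_⟩
    have e := hMB' i
    rw [Matrix.mulVec_smul] at e
    have e2 : MB.mulVec (v i) = (s i)⁻¹ • (s i • MB.mulVec (v i)) := by
      rw [smul_smul, inv_mul_cancel₀ (hs i), one_smul]
    rw [e2, e]
    funext j
    simp only [Pi.smul_apply, smul_eq_mul]
    ring

end Pool.Agent.Helper57.EC
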