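import Pool.Agent.Helper75.EC.Stmts

/-!
# The inequalities cut out the cone spanned by the vertices
-/

namespace Pool.Agent.Helper57.EC

open Pool.Agent.Helper75.EC

universe w

theorem POLY_fin (n : ℕ) : (vgens n).Finite := by
  have hsub : vgens n ⊆ Set.range
      (fun q : Fin (n + 3) × Fin (n + 3) × Finset (Fin (n + 3)) =>
        (Dcls (n := n) (q.1 : ℕ) (q.2.1 : ℕ) q.2.2)) := by
    rintro x ⟨α, β, I, h, _, rfl⟩
    refine ⟨(⟨α, by omega⟩, ⟨β, by omega⟩, I), rfl⟩
  exact (Set.finite_range _).subset hsub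

theorem POLY_hull_sub (n : ℕ) :
    convexHull ℝ (vgens n) ⊆ (Submodule.span NNReal (vgens n) : Set (Cls n)) := by
  refine convexHull_min Submodule.subset_span ?_
  intro x hx y hy a b ha hb _
  have h1 : a • x = (⟨a, ha⟩ : NNReal) • x := rfl
  have h2 : b • y = (⟨b, hb⟩ : NNReal) • y := rfl
  rw [h1, h2]
  exact Submodule.add_mem _ (Submodule.smul_mem _ _ hx) (Submodule.smul_mem _ _ hy)

/-- a linear functional in coordinates -/
theorem POLY_coord {n : ℕ} (f : Cls n →L[ℝ] ℝ) (y : Cls n) :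
    f y = y.1 * f (1, 0, 0) + y.2.1 * f (0, 1, 0) + ∑ i, y.2.2 i * f (0, 0, Pi.single i 1) := by
  obtain ⟨a, b, m⟩ := y
  have h : ((a, b, m) : Cls n) = a • ((1, 0, 0) : Cls n) + b • ((0, 1, 0) : Cls n)
      + ∑ i, m i • ((0, 0, Pi.single i 1) : Cls n) := by
    have hm : m = ∑ i, m i • (Pi.single i (1 : ℝ) : Fin (n + 3) → ℝ) := by
      funext j
      simp [Finset.sum_apply, Pi.single_apply]
    have h3 : ∑ i, m i • ((0, 0, Pi.single i 1) : Cls n) = ((0, 0, m) : Cls n) := by
      ext1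
      · simp [Prod.fst_sum]
      · ext1
        · simp [Prod.snd_sum, Prod.fst_sum]
        · simp only [Prod.snd_sum, Prod.smul_snd]
          exact hm.symm
    rw [h3]
    simp
  have h4 := congrArg f h
  rw [map_add, map_add, map_smul, map_smul, map_sum] at h4
  simp only [map_smul, smul_eq_mul] at h4
  exact h4

/-- value of an affine functional in the coordinates `(δ, b)` on the slice `wt = 1` -/
theorem POLY_val {n : ℕ} (f : Cls n →L[ℝ] ℝ) (u : ℝ) (y : Cls n) (hw : wt y = 1) :
    f y - u = (-(f (1, 0, 0) + ∑ i, f (0, 0, Pi.single i 1)) / 2 - u)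
      + (f (0, 1, 0) + (∑ i, f (0, 0, Pi.single i 1))
          - (f (1, 0, 0) + ∑ i, f (0, 0, Pi.single i 1)) / 2) * y.2.1
      + ∑ i, ((f (1, 0, 0) + ∑ i, f (0, 0, Pi.single i 1)) / 2 - f (0, 0, Pi.single i 1))
          * del y i := by
  have h1 : ∑ i, ((f (1, 0, 0) + ∑ i, f (0, 0, Pi.single i 1)) / 2
      - f (0, 0, Pi.single i 1)) * del y i
      = (f (1, 0, 0) + ∑ i, f (0, 0, Pi.single i 1)) / 2 * (∑ i, del y i)
        - ((y.1 + y.2.1) * (∑ i, f (0, 0, Pi.single i 1))
          - ∑ i, y.2.2 i * f (0, 0, Pi.single i 1)) := by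
    rw [Finset.mul_sum, Finset.mul_sum, ← Finset.sum_sub_distrib, ← Finset.sum_sub_distrib]
    refine Finset.sum_congr rfl fun i _ => ?_
    unfold del
    ring
  have h2 : ∑ i, del y i = 1 + 2 * y.1 + y.2.1 := by
    unfold wt at hw
    linarith
  rw [h1, h2, POLY_coord f y]
  ring

theorem POLY_del_gen {n : ℕ} (α β : ℕ) (I : Finset (Fin (n + 3))) (i : Fin (n + 3)) :
    del (Dcls (n := n) α β I) i = if i ∈ Iᶜ then 1 else 0 := by
  unfold del Dcls
  by_cases h : i ∈ I
  · simp [h]
  · simp [h]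

theorem POLY_wt_gen {n : ℕ} (α β : ℕ) (I : Finset (Fin (n + 3)))
    (h : 2 * α + β + I.card = n + 2) : wt (Dcls (n := n) α β I) = 1 := by
  unfold wt
  simp only [POLY_del_gen]
  rw [Finset.sum_ite_mem, Finset.univ_inter, Finset.sum_const, Finset.card_compl,
    Fintype.card_fin, nsmul_eq_mul, mul_one]
  have hI : I.card ≤ n + 3 := by omega
  rw [Nat.cast_sub hI]
  have hc : (2 * α + β + I.card : ℝ) = n + 2 := by exact_mod_cast h
  have e1 : (Dcls (n := n) α β I).1 = (α : ℝ) := rfl
  have e2 : (Dcls (n := n) α β I).2.1 = (β : ℝ) := rfl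
  rw [e1, e2]
  push_cast
  linarith

/-- the value at a generator -/
theorem POLY_gen {n : ℕ} (f : Cls n →L[ℝ] ℝ) (u : ℝ)
    (hf : ∀ y ∈ vgens n, u < f y) (K : Finset (Fin (n + 3))) (α β : ℕ)
    (hK : K.card = 2 * α + β + 1) (hVT : VT α β) :
    0 ≤ (-(f (1, 0, 0) + ∑ i, f (0, 0, Pi.single i 1)) / 2 - u)
      + (f (0, 1, 0) + (∑ i, f (0, 0, Pi.single i 1))
          - (f (1, 0, 0) + ∑ i, f (0, 0, Pi.single i 1)) / 2) * (β : ℝ)
      + ∑ i ∈ K, ((f (1, 0, 0) + ∑ i, f (0, 0, Pi.single i 1)) / 2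
          - f (0, 0, Pi.single i 1)) := by
  have hc : 2 * α + β + (Kᶜ).card = n + 2 := by
    rw [Finset.card_compl, Fintype.card_fin]
    have := Finset.card_le_univ K
    rw [Fintype.card_fin] at this
    omega
  have hmem : Dcls (n := n) α β Kᶜ ∈ vgens n := ⟨α, β, Kᶜ, hc, hVT, rfl⟩
  have h1 := hf _ hmem
  have h2 := POLY_val f u (Dcls (n := n) α β Kᶜ) (POLY_wt_gen α β Kᶜ hc)
  have h3 : ∑ i, ((f (1, 0, 0) + ∑ i, f (0, 0, Pi.single i 1)) / 2
      - f (0, 0, Pi.single i 1)) * del (Dcls (n := n) α β Kᶜ) i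
      = ∑ i ∈ K, ((f (1, 0, 0) + ∑ i, f (0, 0, Pi.single i 1)) / 2
          - f (0, 0, Pi.single i 1)) := by
    simp only [POLY_del_gen, compl_compl, mul_ite, mul_one, mul_zero]
    rw [Finset.sum_ite_mem, Finset.univ_inter]
  rw [h3] at h2
  have h4 : (Dcls (n := n) α β Kᶜ).2.1 = (β : ℝ) := rfl
  rw [h4] at h2
  rw [← h2]
  linarith

theorem POLY_slice (hMAJ : ST_MAJ) (hUP : ST_UP) (hLO : ST_LO) (n : ℕ) (x : Cls n)
    (hx : InC x) (hw : wt x = 1) : x ∈ Submodule.span NNReal (vgens n) := by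
  by_contra hcon
  have hnot : x ∉ convexHull ℝ (vgens n) := fun h => hcon (POLY_hull_sub n h)
  obtain ⟨f, u, hfx, hfv⟩ := geometric_hahn_banach_point_closed (convex_convexHull ℝ (vgens n))
    ((POLY_fin n).isClosed_convexHull ℝ) hnot
  have hf : ∀ y ∈ vgens n, u < f y := fun y hy => hfv y (subset_convexHull ℝ _ hy)
  have hval := POLY_val f u x hw
  have hgen := POLY_gen f u hf
  set lam := (-(f (1, 0, 0) + ∑ i, f (0, 0, Pi.single i 1)) / 2 - u) with hlam
  set mu := (f (0, 1, 0) + (∑ i, f (0, 0, Pi.single i 1))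
          - (f (1, 0, 0) + ∑ i, f (0, 0, Pi.single i 1)) / 2) with hmu
  set c : Fin (n + 3) → ℝ := fun i => ((f (1, 0, 0) + ∑ i, f (0, 0, Pi.single i 1)) / 2
          - f (0, 0, Pi.single i 1)) with hc
  have hS : ∑ i, del x i = 1 + 2 * x.1 + x.2.1 := by
    unfold wt at hw
    linarith
  have hd1 : ∀ i, del x i ≤ 1 := fun i => hw ▸ hx.dw i
  have ht4 := hx.t4
  have ha0 := hx.a0
  have hb0 := hx.b0
  rw [hw] at ht4
  rcases le_or_gt 0 mu with hmu0 | hmu0
  · -- lower law
    obtain ⟨π, hπ, hb⟩ := hLO (n + 3) (del x) x.2.1 hx.d0 hd1 hb0 (by linarith) (by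
      intro q J hJ
      have := hx.hL q J hJ
      rw [hw] at this
      linarith)
    have key := hMAJ (n + 3) (del x) c π (fun k => lam + mu * bmin k) hπ (by
      intro K hK
      have hs := hπ.supp K.card hK
      have hk1 := hs.1
      show 0 ≤ (lam + mu * bmin K.card) + ∑ i ∈ K, c i
      rcases Nat.even_or_odd K.card with he | ho
      · obtain ⟨r, hr⟩ := he
        have hb : bmin K.card = ((1 : ℕ) : ℝ) := by
          unfold bmin
          rw [if_pos (by omega)]
          norm_num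
        rw [hb]
        exact hgen K (r - 1) 1 (by omega) ⟨by omega, Or.inr (Or.inl rfl)⟩
      · obtain ⟨r, hr⟩ := ho
        have hb : bmin K.card = ((0 : ℕ) : ℝ) := by
          unfold bmin
          rw [if_neg (by omega)]
          norm_num
        rw [hb]
        exact hgen K r 0 (by omega) ⟨by omega, Or.inl rfl⟩)
    have e1 : ∑ k ∈ Finset.range (n + 3 + 1), π k * (lam + mu * bmin k)
        = lam + mu * ∑ k ∈ Finset.range (n + 3 + 1), π k * bmin k := by
      have : ∀ k, π k * (lam + mu * bmin k) = lam * π k + mu * (π k * bmin k) := fun k => by ring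
      simp only [this]
      rw [Finset.sum_add_distrib, ← Finset.mul_sum, ← Finset.mul_sum, hπ.total, mul_one]
    rw [e1] at key
    have e2 : mu * ∑ k ∈ Finset.range (n + 3 + 1), π k * bmin k ≤ mu * x.2.1 :=
      mul_le_mul_of_nonneg_left hb hmu0
    have e3 : f x - u = lam + mu * x.2.1 + ∑ i, c i * del x i := hval
    linarith
  · obtain ⟨π, hπ, hb⟩ := hUP (n + 3) (del x) x.2.1 hx.d0 hd1 (by linarith) (by linarith)
      (by linarith) (by
      intro j J hJ
      have := hx.hA j J hJ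
      rw [hw] at this
      linarith) (by
      intro j J hJ
      have := hx.hB j J hJ
      rw [hw] at this
      linarith)
    have key := hMAJ (n + 3) (del x) c π (fun k => lam + mu * bmax k) hπ (by
      intro K hK
      have hs := hπ.supp K.card hK
      have hk1 := hs.1
      show 0 ≤ (lam + mu * bmax K.card) + ∑ i ∈ K, c i
      have h3 : K.card % 3 = 0 ∨ K.card % 3 = 1 ∨ K.card % 3 = 2 := by omega
      rcases h3 with h3 | h3 | h3
      · obtain ⟨r, hr⟩ : ∃ r, K.card = 3 * (r + 1) := ⟨K.card / 3 - 1, by omega⟩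
        have hb : bmax K.card = ((r : ℕ) : ℝ) := by
          unfold bmax
          rw [if_neg (by omega), if_neg (by omega), hr]
          push_cast
          ring
        rw [hb]
        exact hgen K (r + 1) r (by omega) ⟨by omega, Or.inr (Or.inr (Or.inl rfl))⟩
      · obtain ⟨r, hr⟩ : ∃ r, K.card = 3 * r + 1 := ⟨K.card / 3, by omega⟩
        have hb : bmax K.card = ((r : ℕ) : ℝ) := by
          unfold bmax
          rw [if_neg (by omega), if_pos h3, hr]
          push_cast
          ring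
        rw [hb]
        exact hgen K r r (by omega) ⟨by omega, Or.inr (Or.inr (Or.inr (Or.inl rfl)))⟩
      · obtain ⟨r, hr⟩ : ∃ r, K.card = 3 * r + 2 := ⟨K.card / 3, by omega⟩
        have hb : bmax K.card = ((r + 1 : ℕ) : ℝ) := by
          unfold bmax
          rw [if_pos h3, hr]
          push_cast
          ring
        rw [hb]
        exact hgen K r (r + 1) (by omega) ⟨by omega, Or.inr (Or.inr (Or.inr (Or.inr rfl)))⟩)
    have e1 : ∑ k ∈ Finset.range (n + 3 + 1), π k * (lam + mu * bmax k)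
        = lam + mu * ∑ k ∈ Finset.range (n + 3 + 1), π k * bmax k := by
      have : ∀ k, π k * (lam + mu * bmax k) = lam * π k + mu * (π k * bmax k) := fun k => by ring
      simp only [this]
      rw [Finset.sum_add_distrib, ← Finset.mul_sum, ← Finset.mul_sum, hπ.total, mul_one]
    rw [e1] at key
    have e2 : mu * ∑ k ∈ Finset.range (n + 3 + 1), π k * bmax k ≤ mu * x.2.1 :=
      mul_le_mul_of_nonpos_left hb hmu0.le
    have e3 : f x - u = lam + mu * x.2.1 + ∑ i, c i * del x i := hval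
    linarith

theorem POLY_del_smul {n : ℕ} (s : ℝ) (x : Cls n) (i : Fin (n + 3)) :
    del (s • x) i = s * del x i := by
  unfold del
  simp only [Prod.smul_fst, Prod.smul_snd, Pi.smul_apply, smul_eq_mul]
  ring

theorem POLY_wt_smul {n : ℕ} (s : ℝ) (x : Cls n) : wt (s • x) = s * wt x := by
  unfold wt
  simp only [POLY_del_smul]
  rw [← Finset.mul_sum]
  simp only [Prod.smul_fst, Prod.smul_snd, smul_eq_mul]
  ring

theorem POLY_smul {n : ℕ} (s : ℝ) (hs : 0 ≤ s) (x : Cls n) (hx : InC x) : InC (s • x) where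
  a0 := by
    simpa using mul_nonneg hs hx.a0
  b0 := by
    simpa using mul_nonneg hs hx.b0
  d0 := fun i => by
    rw [POLY_del_smul]
    exact mul_nonneg hs (hx.d0 i)
  dw := fun i => by
    rw [POLY_del_smul, POLY_wt_smul]
    exact mul_le_mul_of_nonneg_left (hx.dw i) hs
  t4 := by
    rw [POLY_wt_smul]
    have := mul_le_mul_of_nonneg_left hx.t4 hs
    simp only [Prod.smul_fst, Prod.smul_snd, smul_eq_mul]
    linarith
  hL := fun q J hJ => by
    rw [POLY_wt_smul]
    simp only [POLY_del_smul]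
    rw [← Finset.mul_sum]
    have := mul_le_mul_of_nonneg_left (hx.hL q J hJ) hs
    simp only [Prod.smul_fst, Prod.smul_snd, smul_eq_mul]
    linarith
  hA := fun q J hJ => by
    rw [POLY_wt_smul]
    simp only [POLY_del_smul]
    rw [← Finset.mul_sum]
    have := mul_le_mul_of_nonneg_left (hx.hA q J hJ) hs
    simp only [Prod.smul_fst, smul_eq_mul]
    linarith
  hB := fun q J hJ => by
    rw [POLY_wt_smul]
    simp only [POLY_del_smul]
    rw [← Finset.mul_sum]
    have := mul_le_mul_of_nonneg_left (hx.hB q J hJ) hs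
    simp only [Prod.smul_fst, smul_eq_mul]
    linarith

theorem st_POLY (hMAJ : ST_MAJ) (hUP : ST_UP) (hLO : ST_LO) : ST_POLY := by
  intro n x hx
  have hw0 : 0 ≤ wt x := le_trans (hx.d0 0) (hx.dw 0)
  rcases hw0.eq_or_lt with h0 | hpos
  · have hd : ∀ i, del x i = 0 := fun i =>
      le_antisymm (by rw [h0]; exact hx.dw i) (hx.d0 i)
    have ha0 := hx.a0
    have hb0 := hx.b0
    have hsum : 2 * x.1 + x.2.1 = 0 := by
      have : wt x = 0 - 2 * x.1 - x.2.1 := by
        unfold wt
        rw [Finset.sum_eq_zero fun i _ => hd i]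
      linarith
    have ha : x.1 = 0 := by linarith
    have hb : x.2.1 = 0 := by linarith
    have hm : x.2.2 = 0 := by
      funext i
      have := hd i
      unfold del at this
      rw [ha, hb] at this
      simp only [Pi.zero_apply]
      linarith
    have hx0 : x = 0 := by
      ext1
      · exact ha
      · ext1
        · exact hb
        · exact hm
    rw [hx0]
    exact Submodule.zero_mem _
  · have h1 : (wt x)⁻¹ • x ∈ Submodule.span NNReal (vgens n) := by
      refine POLY_slice hMAJ hUP hLO n _ (POLY_smul _ (inv_nonneg.mpr hw0) x hx) ?_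
      rw [POLY_wt_smul, inv_mul_cancel₀ hpos.ne']
    have h2 : x = (⟨wt x, hw0⟩ : NNReal) • ((wt x)⁻¹ • x) := by
      show x = (wt x) • ((wt x)⁻¹ • x)
      rw [smul_smul, mul_inv_cancel₀ hpos.ne', one_smul]
    rw [h2]
    exact Submodule.smul_mem _ _ h1

end Pool.Agent.Helper57.EC
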